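import Mathlib
import Pool.Agent.Lib.MP_3c3704_nt.Defs
import Pool.Agent.Lib.MP_3c3704_nt.Main

namespace Pool.Agent.Results.MP_3c3704_nt.InfinitelyManyIrregular

open Pool.Agent.Lib.MP_3c3704_nt

/-- There are infinitely many irregular Pisot numbers in `(1.933, 2)` of degree at least `151`
which are not simple Parry numbers. -/
theorem result :
    {q : ℝ | IsPisot q ∧ 1.933 < q ∧ q < 2 ∧ ¬ IsRegularPisot q ∧
      151 ≤ (minpoly ℚ q).natDegree ∧ ¬ IsSimpleParry q}.Infinite :=
  exceptionalSet_infinite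

end Pool.Agent.Results.MP_3c3704_nt.InfinitelyManyIrregular
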